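import Mathlib

set_option autoImplicit false

namespace Pool.Agent.Results.MP_e04167_ag.Elliptic

open Complex

/-- `SG n`: the coefficient vectors `z = (z_1, ..., z_n)` (index `j` stands for `z_(j+1)`) with
`z_1 = 0` such that the discriminant, the product over `i < j` of `(r i - r j) ^ 2` over the
roots `r` of `t ^ n + z_1 t ^ (n-1) + ... + z_n`, equals `1`. -/
def SG (n : ℕ) : Set (Fin n → ℂ) :=
  {z | (∀ j : Fin n, j.val = 0 → z j = 0) ∧ ∃ r : Fin n → ℂ,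
    (∀ t : ℂ, t ^ n + ∑ j : Fin n, z j * t ^ (n - 1 - j.val) = ∏ i, (t - r i)) ∧
    ∏ j, ∏ i ∈ Finset.Iio j, (r i - r j) ^ 2 = 1}

/-- Coefficients of the primitive 4-division polynomial of `X ^ 3 + a X + b`. -/
def co (a b : ℂ) : Fin 6 → ℂ := ![0, 5 * a, 20 * b, -5 * a ^ 2, -4 * a * b, -8 * b ^ 2 - a ^ 3]

theorem prod6' (G : Fin 6 → Fin 6 → ℂ) : ∏ j, ∏ i ∈ Finset.Iio j, G i j =
    (G 0 1 * G 2 3 * G 4 5) * ((G 0 2 * G 0 3) * (G 1 2 * G 1 3)) *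
    ((G 0 4 * G 0 5) * (G 1 4 * G 1 5)) * ((G 2 4 * G 3 4) * (G 2 5 * G 3 5)) := by
  have h : ∀ j : Fin 6, ∏ i ∈ Finset.Iio j, G i j = ∏ i, if i < j then G i j else 1 := by
    intro j
    rw [← Finset.prod_filter]
    congr 1
    ext i; simp
  simp only [h, Fin.prod_univ_six]
  simp only [Fin.lt_def]
  norm_num
  ring

theorem prod6 (r : Fin 6 → ℂ) : ∏ j, ∏ i ∈ Finset.Iio j, (r i - r j) ^ 2 =
    ((r 0 - r 1) ^ 2 * (r 2 - r 3) ^ 2 * (r 4 - r 5) ^ 2) *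
    (((r 0 - r 2) * (r 0 - r 3)) * ((r 1 - r 2) * (r 1 - r 3))) ^ 2 *
    (((r 0 - r 4) * (r 0 - r 5)) * ((r 1 - r 4) * (r 1 - r 5))) ^ 2 *
    (((r 4 - r 2) * (r 4 - r 3)) * ((r 5 - r 2) * (r 5 - r 3))) ^ 2 := by
  rw [prod6' fun i j => (r i - r j) ^ 2]
  simp only [mul_pow, sub_sq_comm (r 4) (r 2), sub_sq_comm (r 4) (r 3), sub_sq_comm (r 5) (r 2),
    sub_sq_comm (r 5) (r 3)]

theorem mem (a b : ℂ) (h : 2 ^ 18 * (4 * a ^ 3 + 27 * b ^ 2) ^ 5 = 1) : co a b ∈ SG 6 := by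
  obtain ⟨e, he⟩ : ∃ e : ℂ, e ^ 3 + a * e + b = 0 := by
    obtain ⟨e, he⟩ := IsAlgClosed.exists_root
      (Polynomial.X ^ 3 + Polynomial.C a * Polynomial.X + Polynomial.C b : Polynomial ℂ)
      (by
        have : (Polynomial.X ^ 3 + Polynomial.C a * Polynomial.X + Polynomial.C b :
          Polynomial ℂ).degree = 3 := by compute_degree!
        rw [this]; decide)
    exact ⟨e, by simpa using he⟩
  obtain ⟨d, hd⟩ := IsAlgClosed.exists_eq_mul_self (9 * e ^ 2 / 4 - (3 * e ^ 2 + a))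
  obtain ⟨A, hA⟩ := IsAlgClosed.exists_eq_mul_self (3 * e / 2 - d)
  obtain ⟨B, hB⟩ := IsAlgClosed.exists_eq_mul_self (3 * e / 2 + d)
  obtain ⟨C, hC⟩ := IsAlgClosed.exists_eq_mul_self (2 * d)
  have hI : I ^ 2 = -1 := I_sq
  have hc : C ^ 2 = B ^ 2 - A ^ 2 := by linear_combination -hC + hB - hA
  have e1 : e = (A ^ 2 + B ^ 2) / 3 := by linear_combination (hA + hB) / 3
  have d1 : d = (B ^ 2 - A ^ 2) / 2 := by linear_combination (hB - hA) / 2
  have a1 : a = A ^ 2 * B ^ 2 - 3 * e ^ 2 := by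
    rw [e1, d1] at hd; rw [e1]; linear_combination -hd
  have b1 : b = -e ^ 3 - a * e := by linear_combination he
  have q34 : ∀ t : ℂ, (t - (e - A ^ 2 + I * A * C)) * (t - (e - A ^ 2 - I * A * C)) =
      (t - e) ^ 2 + 2 * A ^ 2 * (t - e) + A ^ 2 * B ^ 2 := fun t => by
    linear_combination (-A ^ 2 * C ^ 2) * hI + A ^ 2 * hc
  have q56 : ∀ t : ℂ, (t - (e - B ^ 2 + B * C)) * (t - (e - B ^ 2 - B * C)) =
      (t - e) ^ 2 + 2 * B ^ 2 * (t - e) + A ^ 2 * B ^ 2 := fun t => by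
    linear_combination (-B ^ 2) * hc
  refine ⟨fun j hj => ?_, ![e + A * B, e - A * B, e - A ^ 2 + I * A * C, e - A ^ 2 - I * A * C,
    e - B ^ 2 + B * C, e - B ^ 2 - B * C], fun t => ?_, ?_⟩
  · obtain rfl : j = 0 := Fin.ext hj
    rfl
  · simp only [Fin.sum_univ_six, Fin.prod_univ_six, co]
    simp only [Matrix.cons_val, Fin.val_zero, Fin.val_one, Fin.val_two]
    have : ∀ u v w x y z : ℂ, u * v * w * x * y * z = u * v * (w * x) * (y * z) := by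
      intros; ring
    rw [this, q34, q56, b1, a1, e1]
    norm_num
    ring
  · rw [prod6]
    simp only [Matrix.cons_val]
    rw [q34, q34, q56, q56, q34, q34]
    have s1 : (e - A ^ 2 + I * A * C - (e - A ^ 2 - I * A * C)) ^ 2 = -4 * A ^ 2 * C ^ 2 := by
      linear_combination (4 * A ^ 2 * C ^ 2) * hI
    have s2 : ((e - B ^ 2 + B * C - e) ^ 2 + 2 * A ^ 2 * (e - B ^ 2 + B * C - e) + A ^ 2 * B ^ 2) *
        ((e - B ^ 2 - B * C - e) ^ 2 + 2 * A ^ 2 * (e - B ^ 2 - B * C - e) + A ^ 2 * B ^ 2) =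
        4 * (B ^ 2 - A ^ 2) ^ 2 * (A ^ 2 * B ^ 2) := by
      have u1 : (e - B ^ 2 + B * C - e) ^ 2 + 2 * A ^ 2 * (e - B ^ 2 + B * C - e) + A ^ 2 * B ^ 2 =
          -2 * (B ^ 2 - A ^ 2) * (-B ^ 2 + B * C) := by linear_combination (B ^ 2) * hc
      have u2 : (e - B ^ 2 - B * C - e) ^ 2 + 2 * A ^ 2 * (e - B ^ 2 - B * C - e) + A ^ 2 * B ^ 2 =
          -2 * (B ^ 2 - A ^ 2) * (-B ^ 2 - B * C) := by linear_combination (B ^ 2) * hc
      rw [u1, u2]
      linear_combination (-4 * (B ^ 2 - A ^ 2) ^ 2 * B ^ 2) * hc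
    have s3 : (e - B ^ 2 + B * C - (e - B ^ 2 - B * C)) ^ 2 = 4 * B ^ 2 * C ^ 2 := by ring
    rw [s1, s2, s3, hc, ← h, b1, a1, e1]
    ring

/-- A non-constant holomorphic map from the affine part of an elliptic curve to `SG 6`. -/
theorem result : ∃ (W : WeierstrassCurve ℂ) (f : ℂ × ℂ → Fin 6 → ℂ), W.IsElliptic ∧
    Differentiable ℂ f ∧ (∀ x y, W.toAffine.Equation x y → f (x, y) ∈ SG 6) ∧
    ∃ x y x' y', W.toAffine.Equation x y ∧ W.toAffine.Equation x' y' ∧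
      f (x, y) ≠ f (x', y') := by
  obtain ⟨g, hg⟩ := IsAlgClosed.exists_pow_nat_eq (1 / 2 ^ 18 : ℂ) (n := 5) (by norm_num)
  have g0 : g ≠ 0 := by
    rintro rfl
    norm_num at hg
  have hE : ∀ x y : ℂ, (WeierstrassCurve.mk 0 0 0 0 (g / 108)).toAffine.Equation x y ↔
      y ^ 2 = x ^ 3 + g / 108 := by
    intro x y
    rw [WeierstrassCurve.Affine.equation_iff]
    simp
  refine ⟨⟨0, 0, 0, 0, g / 108⟩, fun p => co (-3 * p.1) (2 * p.2), ⟨?_⟩, ?_, fun x y h => ?_, ?_⟩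
  · rw [isUnit_iff_ne_zero]
    simp [WeierstrassCurve.Δ, WeierstrassCurve.b₂, WeierstrassCurve.b₄, WeierstrassCurve.b₆,
      WeierstrassCurve.b₈, g0]
  · refine differentiable_pi.2 fun j => ?_
    fin_cases j <;> simp [co] <;> fun_prop
  · rw [hE] at h
    apply mem
    have : 4 * (-3 * x) ^ 3 + 27 * (2 * y) ^ 2 = g := by linear_combination 108 * h
    rw [this, hg]; norm_num
  · obtain ⟨y, hy⟩ := IsAlgClosed.exists_eq_mul_self (g / 108)
    refine ⟨0, y, 0, -y, (hE _ _).2 (by linear_combination -hy),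
      (hE _ _).2 (by linear_combination -hy), fun h => g0 ?_⟩
    have := congrFun h 2
    change 20 * (2 * y) = 20 * (2 * -y) at this
    have y0 : y = 0 := by linear_combination this / 80
    rw [y0] at hy
    linear_combination 108 * hy

end Pool.Agent.Results.MP_e04167_ag.Elliptic
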