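import Mathlib
import Pool.Agent.H80.GenusDefs
import Pool.Agent.H80.Genus2

open Polynomial Pool.Agent.H80.Genus

theorem Pool.Agent.Results.MP_e04167_ag.GenusTwo.result :
    ∃ n : ℕ, 4 < n ∧ ∃ (K : Type) (_ : Field K) (_ : Algebra ℂ K) (A : Subalgebra ℂ K),
    A.FG ∧ IsFractionRing A K ∧
    (∀ (m : Ideal A) [m.IsMaximal], IsDiscreteValuationRing (Localization.AtPrime m)) ∧
    genus ℂ K < ((n - 1) * (n - 2) / 2 : ℕ) ∧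
    ∃ P : A[X], (∀ φ : A →ₐ[ℂ] ℂ, ∃ l : Fin n → ℂ, P.map φ.toRingHom = ∏ i, (X - C (l i)) ∧
        ∑ i, l i = 0 ∧ ∏ i, ∏ j ∈ Finset.Ioi i, (l i - l j) ^ 2 = 1) ∧
      ∃ φ ψ : A →ₐ[ℂ] ℂ, P.map φ.toRingHom ≠ P.map ψ.toRingHom :=
  main
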